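import Pool.Agent.Helper1.DROwn.Proof

/-!
# An almost diameter-Ramsey set which is not diameter-Ramsey

The definitions are in `Pool/Agent/Helper1/DROwn/Defs.lean`.
-/

set_option autoImplicit false

namespace Pool.Agent.Results.MP_3a82a8_co.SeparatingSet

open Pool.Agent.Helper1.DROwn

/-- **There is a set of `33` points in `ℝ^16` which is almost diameter-Ramsey, but not
diameter-Ramsey.** Moreover, for all large `r` there is no set `R` at all, finite or infinite, with
`diam(R) ≤ diam(P)` and `R → (P)_r`.

`Arrow R P r` is `R → (P)_r`. The set is Ramsey, `d_P(r) = diam(P)` for every `r ≥ 1`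
(`AlmostDiameterRamsey`), and for some `r ≥ 2` no finite set `R` with `diam(R) = diam(P)` satisfies
`R → (P)_r` (the negation of `DiameterRamsey`). The diameter `Metric.ediam` has values in `[0, ∞]`. -/
theorem result : ∃ P : Finset (E 16), P.card = 33 ∧ AlmostDiameterRamsey (P : Set (E 16)) ∧
    ¬ DiameterRamsey (P : Set (E 16)) ∧
    ∃ r₀ : ℕ, ∀ r : ℕ, r₀ ≤ r → ∀ (n : ℕ) (R : Set (E n)),
      Metric.ediam R ≤ Metric.ediam (P : Set (E 16)) → ¬ Arrow R (P : Set (E 16)) r :=
  main

end Pool.Agent.Results.MP_3a82a8_co.SeparatingSet
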